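import Mathlib
import Pool.Agent.Lib.helper28.KMD

namespace Pool.Agent.Results.MP_9b0515_pr.NotOptimal

open MeasureTheory ProbabilityTheory Set Real Filter Topology Pool.Agent.H28KM
open scoped ENNReal NNReal

/-- Noise stability `P(X ∈ A, ρ X + √(1-ρ²) Y ∈ A)`, `X, Y` independent standard Gaussians. -/
noncomputable def stab {n : ℕ} (ρ : ℝ) (A : Set (Fin n → ℝ)) : ℝ :=
  ((gauss n).prod (gauss n)).real {p | p.1 ∈ A ∧ ρ • p.1 + √(1 - ρ ^ 2) • p.2 ∈ A}

/-- The periodic half space with signs `ε`. -/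
def halfSpace {n : ℕ} (ε : Fin n → ℝ) : Set (Fin n → ℝ) :=
  {x | 0 ≤ sin (π * ∑ i, ε i * x i)}

/-- The countably many points `x` with `2 x ∈ ℤ^n` and `∑ x_i ∈ ℤ`.  At such a point the
translation conditions force `x ∈ Ω ↔ -x ∈ Ω`, so `-Ω = Ωᶜ` cannot hold there. -/
def Forced {n : ℕ} (x : Fin n → ℝ) : Prop :=
  (∀ i, ∃ m : ℤ, 2 * x i = m) ∧ ∃ m : ℤ, ∑ i, x i = m

/-- Periodic set: Borel, `Ω + v_i = Ωᶜ` exactly, and `-Ω = Ωᶜ` at every point that is not
`Forced`. -/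
def IsPeriodic {n : ℕ} (Ω : Set (Fin n → ℝ)) : Prop :=
  MeasurableSet Ω ∧ (∀ i, (fun x => x + Pi.single i 1) '' Ω = Ωᶜ) ∧
    ∀ x, ¬ Forced x → (x ∈ -Ω ↔ x ∈ Ωᶜ)

def isZ (t : ℝ) : Prop := ∃ m : ℤ, t = m

lemma isZ_countable : {t | isZ t}.Countable := by
  refine (countable_range (fun m : ℤ => (m : ℝ))).mono ?_
  rintro t ⟨m, rfl⟩
  exact ⟨m, rfl⟩

lemma isZ_add_int (t : ℝ) (k : ℤ) : isZ (t + k) ↔ isZ t := by
  constructor
  · rintro ⟨m, h⟩; exact ⟨m - k, by push_cast; linarith⟩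
  · rintro ⟨m, h⟩; exact ⟨m + k, by push_cast; linarith⟩

lemma isZ_neg (t : ℝ) : isZ (-t) ↔ isZ t := by
  constructor
  · rintro ⟨m, h⟩; exact ⟨-m, by push_cast; linarith⟩
  · rintro ⟨m, h⟩; exact ⟨-m, by push_cast; linarith⟩

noncomputable def par (t : ℝ) : ℝ := if Even ⌊t⌋ then 1 else -1

lemma par_pm (t : ℝ) : par t = 1 ∨ par t = -1 := by
  unfold par; split_ifs <;> simp

lemma par_add_one (t : ℝ) : par (t + 1) = -par t := by
  unfold par
  rw [Int.floor_add_one]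
  by_cases h : Even ⌊t⌋ <;> simp [h]

lemma par_sub_one (t : ℝ) : par (t - 1) = -par t := by
  have := par_add_one (t - 1)
  rw [sub_add_cancel] at this
  linarith

lemma par_neg {t : ℝ} (h : ¬ isZ t) : par (-t) = -par t := by
  have e : ⌊-t⌋ = -⌊t⌋ - 1 := by
    rw [Int.floor_eq_iff]
    have h1 := Int.floor_le t
    have h2 := Int.lt_floor_add_one t
    have h3 : (⌊t⌋ : ℝ) ≠ t := fun e => h ⟨⌊t⌋, e.symm⟩
    have h4 := lt_of_le_of_ne h1 h3
    push_cast
    constructor <;> linarith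
  unfold par
  rw [e]
  by_cases h : Even ⌊t⌋ <;> simp [h]

lemma par_meas : Measurable par :=
  (measurable_from_top (f := fun k : ℤ => if Even k then (1 : ℝ) else -1)).comp
    Int.measurable_floor

open Classical in
noncomputable def eta {n : ℕ} : List (Fin n) → (Fin n → ℝ) → ℝ
  | [], x => par (∑ j, x j)
  | i :: l, x => if isZ (∑ j, x j) ∧ ¬ isZ (2 * x i) then par (∑ j, x j - 2 * x i) else eta l x

lemma eta_pm {n : ℕ} (l : List (Fin n)) (x : Fin n → ℝ) : eta l x = 1 ∨ eta l x = -1 := by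
  induction l with
  | nil => exact par_pm _
  | cons i l ih =>
    unfold eta
    split_ifs
    · exact par_pm _
    · exact ih

lemma eta_meas {n : ℕ} (l : List (Fin n)) : Measurable (eta l) := by
  induction l with
  | nil => exact par_meas.comp (by fun_prop)
  | cons i l ih =>
    classical
    change Measurable fun x : Fin n → ℝ => if isZ (∑ j, x j) ∧ ¬ isZ (2 * x i) then
      par (∑ j, x j - 2 * x i) else eta l x
    refine Measurable.ite ?_ (par_meas.comp (by fun_prop)) ih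
    have m := isZ_countable.measurableSet
    exact ((by fun_prop : Measurable fun x : Fin n → ℝ => ∑ j, x j) m).inter
      ((by fun_prop : Measurable fun x : Fin n → ℝ => 2 * x i) m).compl

lemma sum_shift {n : ℕ} (x : Fin n → ℝ) (k : Fin n) :
    ∑ j, (x + Pi.single k (1 : ℝ) : Fin n → ℝ) j = ∑ j, x j + 1 := by
  simp [Finset.sum_add_distrib]

lemma eta_shift {n : ℕ} (l : List (Fin n)) (x : Fin n → ℝ) (k : Fin n) :
    eta l (x + Pi.single k 1) = -eta l x := by
  induction l with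
  | nil => unfold eta; rw [sum_shift, par_add_one]
  | cons i l ih =>
    unfold eta
    rw [sum_shift]
    have h1 : isZ (∑ j, x j + 1) ↔ isZ (∑ j, x j) := by simpa using isZ_add_int (∑ j, x j) 1
    by_cases hik : i = k
    · subst hik
      have e : 2 * (x + Pi.single i (1 : ℝ) : Fin n → ℝ) i = 2 * x i + 2 := by simp; ring
      have h2 : isZ (2 * x i + 2) ↔ isZ (2 * x i) := by simpa using isZ_add_int (2 * x i) 2
      rw [e, h1, h2, ih, show ∑ j, x j + 1 - (2 * x i + 2) = ∑ j, x j - 2 * x i - 1 by ring,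
        par_sub_one]
      split_ifs <;> rfl
    · have e : (x + Pi.single k (1 : ℝ) : Fin n → ℝ) i = x i := by
        simp [Pi.single_eq_of_ne hik]
      rw [e, h1, ih, show ∑ j, x j + 1 - 2 * x i = ∑ j, x j - 2 * x i + 1 by ring, par_add_one]
      split_ifs <;> rfl

lemma eta_neg {n : ℕ} (l : List (Fin n)) (x : Fin n → ℝ)
    (h : ¬ isZ (∑ j, x j) ∨ ∃ i ∈ l, ¬ isZ (2 * x i)) : eta l (-x) = -eta l x := by
  have hs : ∑ j, (-x) j = -∑ j, x j := by simp
  induction l with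
  | nil =>
    unfold eta
    rw [hs, par_neg (by simpa using h)]
  | cons i l ih =>
    unfold eta
    rw [hs, Pi.neg_apply, mul_neg, isZ_neg, isZ_neg,
      show -∑ j, x j - -(2 * x i) = -(∑ j, x j - 2 * x i) by ring]
    split_ifs with hc
    · apply par_neg
      obtain ⟨⟨m, hm⟩, h2⟩ := hc
      rintro ⟨k, hk⟩
      exact h2 ⟨m - k, by push_cast; linarith⟩
    · apply ih
      rcases h with h | ⟨j, hj, h⟩
      · exact Or.inl h
      · rcases List.mem_cons.mp hj with rfl | hj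
        · left; intro h'; exact hc ⟨h', h⟩
        · exact Or.inr ⟨j, hj, h⟩

lemma forced_null {n : ℕ} (hn : 1 ≤ n) : gauss n {x | Forced x} = 0 := by
  haveI := nullSingletonClass_gaussianReal (μ := 0) (v := 1) one_ne_zero
  have hc : (range fun m : ℤ => (m : ℝ) / 2).Countable := countable_range _
  have h0 := Measure.pi_eval_preimage_null (fun _ : Fin n => gaussianReal 0 1) (i := ⟨0, hn⟩)
    (hc.measure_zero (gaussianReal 0 1))
  refine measure_mono_null (fun x hx => ?_) h0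
  obtain ⟨m, hm⟩ := hx.1 ⟨0, hn⟩
  exact ⟨m, by simp only [Function.eval]; linarith⟩

lemma half_bound {ρ : ℝ} (h1 : 1 / 2 < ρ) (h2 : ρ < 1) : ∃ C : ℝ, ∀ n : ℕ, 1 ≤ n →
    ∀ ε : Fin n → ℝ, (∀ i, ε i = 1 ∨ ε i = -1) →
      stab ρ (halfSpace ε) ≤ 1 / 4 + C * (exp (-((π * √(1 - ρ)) ^ 2 / 2)) ^ 2) ^ n := by
  have hρ : 0 < 1 - ρ := by linarith
  obtain ⟨C, hC, h⟩ := sqw_bound hρ
  refine ⟨C / 2 + C ^ 2 / 4, fun n hn ε hε => ?_⟩
  have hn' : (1 : ℝ) ≤ n := by exact_mod_cast hn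
  have hs : √(1 - ρ ^ 2) ^ 2 = 1 - ρ ^ 2 := sq_sqrt (by nlinarith)
  have ha : √ρ ^ 2 = ρ := sq_sqrt (by linarith)
  have hb : √(1 - ρ) ^ 2 = 1 - ρ := sq_sqrt hρ.le
  set f : (Fin n → ℝ) → ℝ := fun x => sqw (∑ i, ε i * x i) with hf
  have mf : Measurable f := sqw_meas.comp (by fun_prop)
  have pm : ∀ x, f x = 1 ∨ f x = -1 := by
    intro x; simp only [hf, sqw]; split_ifs <;> simp
  have hA : ∀ x, x ∈ halfSpace ε ↔ f x = 1 := by
    intro x; simp only [hf, sqw, halfSpace, mem_ofPred_eq]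
    split_ifs with hh
    · simp [hh]
    · simp only [hh, false_iff]; norm_num
  unfold stab
  rw [stab_eq hs ha hb mf pm hA]
  let L : (Fin n → ℝ) →L[ℝ] ℝ := ∑ i, ε i • ContinuousLinearMap.proj i
  have hL : ∀ x, L x = ∑ i, ε i * x i := by intro x; simp [L]
  have hLe : ∀ i, L (Pi.single i 1) ^ 2 = 1 := by
    intro i
    rw [hL, Finset.sum_eq_single i (fun j _ hj => by simp [Pi.single_eq_of_ne hj]) (by simp)]
    rcases hε i with e | e <;> simp [e]
  have gen : ∀ (c t : ℝ), 1 - ρ ≤ t ^ 2 * n →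
      |∫ z, sqw (c + t * ∑ i, ε i * z i) ∂gauss n| ≤ C * exp (-(π ^ 2 * (t ^ 2 * n) / 2)) := by
    intro c t ht
    obtain ⟨v, hv⟩ : ∃ v : ℝ≥0, (v : ℝ) = t ^ 2 * n := ⟨⟨t ^ 2 * n, by positivity⟩, rfl⟩
    have hm := map_lin (t • L) v (by
      simp only [smul_apply, smul_eq_mul, mul_pow, hLe, hv]
      simp [mul_comm])
    have := h v (hv ▸ ht) c
    have ms : Measurable fun y : ℝ => sqw (c + y) := sqw_meas.comp (by fun_prop)
    rw [← hm, integral_map (by fun_prop) ms.aestronglyMeasurable, hv] at this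
    simpa only [smul_apply, smul_eq_mul, hL] using this
  set A := exp (-((π * √(1 - ρ)) ^ 2 / 2)) with hAdef
  have hAn : exp (-(π ^ 2 * (√(1 - ρ) ^ 2 * n) / 2)) = A ^ n := by
    rw [hAdef, ← exp_nat_mul]; congr 1; ring
  have b1 : ∫ x, f x ∂gauss n ≤ C * (A ^ 2) ^ n := by
    have := gen 0 1 (by nlinarith)
    simp only [zero_add, one_mul, one_pow] at this
    refine (le_abs_self _).trans (this.trans (mul_le_mul_of_nonneg_left ?_ hC.le))
    rw [hAdef, ← exp_nat_mul, ← exp_nat_mul, exp_le_exp, mul_pow, hb]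
    have : 0 ≤ π ^ 2 * n * (ρ - 1 / 2) := by
      have : 0 < ρ - 1 / 2 := by linarith
      positivity
    push_cast
    nlinarith
  have b2 : ∀ w, |sm √ρ √(1 - ρ) f w| ≤ C * A ^ n := by
    intro w
    have := gen (√ρ * ∑ i, ε i * w i) √(1 - ρ) (by rw [hb]; nlinarith)
    rw [hAn] at this
    convert this using 3
    unfold sm
    congr 1
    funext z
    simp only [hf, Pi.add_apply, Pi.smul_apply, smul_eq_mul, Finset.mul_sum,
      ← Finset.sum_add_distrib]
    congr 1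
    exact Finset.sum_congr rfl fun i _ => by ring
  have b3 : ∫ w, sm √ρ √(1 - ρ) f w * sm √ρ √(1 - ρ) f w ∂gauss n ≤ C ^ 2 * (A ^ 2) ^ n := by
    have := norm_integral_le_of_norm_le_const (μ := gauss n)
      (f := fun w => sm √ρ √(1 - ρ) f w * sm √ρ √(1 - ρ) f w) (C := C * A ^ n * (C * A ^ n))
      (Eventually.of_forall fun w => by
        rw [Real.norm_eq_abs, abs_mul]
        exact mul_le_mul (b2 w) (b2 w) (abs_nonneg _) ((abs_nonneg _).trans (b2 w)))
    rw [probReal_univ, mul_one, Real.norm_eq_abs] at this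
    refine (le_abs_self _).trans (this.trans (le_of_eq ?_))
    ring
  linarith

theorem result (ρ : ℝ) (h1 : 1 / 2 < ρ) (h2 : ρ < 1) :
    ∃ n : ℕ, 1 ≤ n ∧ ∃ Ω : Set (Fin n → ℝ), IsPeriodic Ω ∧
      ∀ ε : Fin n → ℝ, (∀ i, ε i = 1 ∨ ε i = -1) → stab ρ (halfSpace ε) < stab ρ Ω := by
  obtain ⟨C, hC⟩ := half_bound h1 h2
  have hρ : 0 < 1 - ρ := by linarith
  have hs : √(1 - ρ ^ 2) ^ 2 = 1 - ρ ^ 2 := sq_sqrt (by nlinarith)
  have ha : √ρ ^ 2 = ρ := sq_sqrt (by linarith)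
  have hb : √(1 - ρ) ^ 2 = 1 - ρ := sq_sqrt hρ.le
  set a := √ρ
  set b := √(1 - ρ)
  set A := exp (-((π * b) ^ 2 / 2)) with hA
  set B := exp (-((3 * π * b) ^ 2 / 2)) with hB
  have hAB : B < A := by
    rw [hA, hB, exp_lt_exp]
    have : 0 < π ^ 2 * b ^ 2 := by rw [hb]; positivity
    nlinarith
  have hr : exp (-((2 * π * a) ^ 2 / 2)) < 1 := by
    rw [Real.exp_lt_one_iff]
    have : 0 < π ^ 2 * a ^ 2 := by
      rw [ha]
      have : 0 < ρ := by linarith
      positivity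
    nlinarith
  obtain ⟨δ, d1, d2⟩ := exists_delta (r4 := exp (-((4 * π * a) ^ 2 / 2)))
    (r6 := exp (-((6 * π * a) ^ 2 / 2))) (exp_pos _) hAB (exp_pos _) hr
  set k := (1 + 2 * δ ^ 2)⁻¹ ^ 2 * (A ^ 2 + δ ^ 2 * A ^ 2 + δ ^ 2 * B ^ 2 +
    2 * δ * A * (A - B) * exp (-((2 * π * a) ^ 2 / 2)) -
    2 * δ ^ 2 * A * B * exp (-((4 * π * a) ^ 2 / 2))) with hk
  set k' := (1 + 2 * δ ^ 2)⁻¹ ^ 2 * (2 * δ * A ^ 2 +
    (A ^ 2 + δ ^ 2 * A ^ 2 - 2 * δ ^ 2 * A * B) * exp (-((2 * π * a) ^ 2 / 2)) -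
    2 * δ * A * B * exp (-((4 * π * a) ^ 2 / 2)) +
    δ ^ 2 * B ^ 2 * exp (-((6 * π * a) ^ 2 / 2))) with hk'
  have hA2 : 0 < A ^ 2 := by positivity
  have hlim := tendsto_pow_atTop_atTop_of_one_lt ((one_lt_div hA2).mpr d1)
  obtain ⟨n, hn1, hn⟩ := ((hlim.eventually_gt_atTop (8 * C + 1)).and
    (eventually_ge_atTop 1)).exists
  rw [div_pow, lt_div_iff₀ (by positivity)] at hn1
  have hk'n : k' ^ n ≤ (A ^ 2) ^ n :=
    (le_abs_self _).trans (by rw [abs_pow]; exact pow_le_pow_left₀ (abs_nonneg _) d2.le n)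
  have hQ : ∫ w, sm a b (gg δ) w * sm a b (gg δ) w ∂gauss n = (k ^ n - k' ^ n) / 2 := by
    simp_rw [sm_gg]
    exact int_im_sq _ _ _ _ _ (tri_kappa _ _ _ _ _) (tri_kappa' _ _ _ _ _)
  set η : (Fin n → ℝ) → ℝ := eta (List.finRange n) with hη
  obtain ⟨u, hu⟩ := exists_round hs ha hb (eta_meas (List.finRange n)) (gg_meas δ)
    (eta_pm _) (gg_abs δ)
  set f := rnd η (gg δ) u with hf
  have mf : Measurable f :=
    (rnd_meas (eta_meas (List.finRange n)) (gg_meas δ)).comp (measurable_const.prodMk measurable_id)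
  have pm : ∀ x, f x = 1 ∨ f x = -1 := rnd_pm _ (eta_pm _) u
  have fshift : ∀ x i, f (x + Pi.single i 1) = -f x := by
    intro x i
    simp only [hf, rnd, hη]
    rw [eta_shift, gg_shift, neg_mul_neg, neg_mul]
  have fneg : ∀ x, ¬ Forced x → f (-x) = -f x := by
    intro x hx
    have : η (-x) = -η x := by
      apply eta_neg
      by_contra hc
      push Not at hc
      exact hx ⟨fun i => hc.2 i (List.mem_finRange i), hc.1⟩
    simp only [hf, rnd]
    rw [this, gg_neg, neg_mul_neg, neg_mul]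
  have hflip : ∀ x y, f y = -f x → (f y = 1 ↔ ¬ f x = 1) := by
    intro x y h
    rcases pm x with e | e <;> rw [h, e] <;> norm_num
  have hint : ∫ x, f x ∂gauss n = 0 := by
    have e1 := integral_map (μ := gauss n) (φ := fun x => -x) (f := f) (by fun_prop)
      mf.aestronglyMeasurable
    rw [map_neg_gauss] at e1
    have e2 : (fun x => f (-x)) =ᵐ[gauss n] fun x => -f x := by
      refine measure_mono_null (fun x hx => ?_) (forced_null hn)
      by_contra hc
      exact hx (fneg x hc)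
    rw [integral_congr_ae e2, integral_neg] at e1
    linarith
  refine ⟨n, hn, {x | f x = 1}, ⟨mf (measurableSet_singleton 1), fun i => ?_, fun x hx => ?_⟩,
    fun ε hε => ?_⟩
  · ext y
    simp only [mem_image, mem_ofPred_eq, mem_compl_iff]
    constructor
    · rintro ⟨x, hx, rfl⟩
      rw [hflip x _ (fshift x i)]
      simpa using hx
    · intro hy
      refine ⟨y - Pi.single i 1, ?_, by simp⟩
      have := hflip _ _ (fshift (y - Pi.single i 1) i)
      rw [sub_add_cancel] at this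
      by_contra hc
      exact hy (this.mpr hc)
  · simp only [Set.mem_neg, mem_ofPred_eq, mem_compl_iff]
    exact hflip x _ (fneg x hx)
  · refine (hC n hn ε hε).trans_lt ?_
    unfold stab
    rw [stab_eq hs ha hb mf pm (A := {x | f x = 1}) (fun x => Iff.rfl), hint]
    rw [hQ] at hu
    linarith

end Pool.Agent.Results.MP_9b0515_pr.NotOptimal
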